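import Pool.Agent.H61.Adm.All
import Pool.Agent.H61.PNT.All

/-!
# Long windows without small prime factors beat `π(k)` by `k logloglog k / log² k`

For all large `k` some window `(m, m+k]` contains at least
`π(k) + (1/5) k logloglog k / (log k)^2` integers without prime factor `≤ k`. So at every large `k`
equality in the Hardy-Littlewood question forces, for arbitrarily large `x`, that many primes in
`(x, x+k]`.
-/

set_option autoImplicit false

namespace Pool.Agent.Results.MP_cbf366_nt.LongAdmissible

open Filter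

theorem result : ∃ k₀ : ℕ, ∀ k ≥ k₀,
    (∃ m : ℕ, (Nat.primeCounting k : ℝ) +
        1 / 5 * k * Real.log (Real.log (Real.log k)) / Real.log k ^ 2 ≤
      (((Finset.Ioc m (m + k)).filter (fun x => Nat.Coprime x (primorial k))).card : ℝ)) ∧
    (∀ H : ℕ,
      (∀ m : ℕ, ((Finset.Ioc m (m + k)).filter
          (fun x => Nat.Coprime x (primorial k))).card ≤ H) →
      (∃ᶠ x in atTop, Nat.primeCounting (x + k) - Nat.primeCounting x = H) →
      ∃ᶠ x : ℕ in atTop, (Nat.primeCounting k : ℝ) +
          1 / 5 * k * Real.log (Real.log (Real.log k)) / Real.log k ^ 2 ≤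
        (Nat.primeCounting (x + k) : ℝ) - Nat.primeCounting x) := by
  obtain ⟨k₀, hk₀⟩ := Pool.Agent.H61.Adm.strong_of_pnt Pool.Agent.H61.PNT.pnt
  refine ⟨k₀, fun k hk => ?_⟩
  obtain ⟨m, hm⟩ := hk₀ k hk
  have hm' : (Nat.primeCounting k : ℝ) +
        1 / 5 * k * Real.log (Real.log (Real.log k)) / Real.log k ^ 2 ≤
      (((Finset.Ioc m (m + k)).filter (fun x => Nat.Coprime x (primorial k))).card : ℝ) := hm
  refine ⟨⟨m, hm'⟩, fun H hH hx => hx.mono fun x hx => ?_⟩
  have h1 : Nat.primeCounting x ≤ Nat.primeCounting (x + k) :=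
    Nat.monotone_primeCounting (Nat.le_add_right x k)
  have h2 : ((Nat.primeCounting (x + k) : ℝ) - Nat.primeCounting x) = (H : ℝ) := by
    rw [← hx, Nat.cast_sub h1]
  rw [h2]
  exact hm'.trans (by exact_mod_cast hH m)

end Pool.Agent.Results.MP_cbf366_nt.LongAdmissible
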